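import Mathlib

/-!
# Partitions of `[n]^d` into odd proper boxes: definitions
-/

namespace Pool.Agent.Helper808.OddBox

/-- `P` is a partition of `[n]^d` into `k` odd proper boxes: the `j`-th box is the product of the
sets `P j i`, each of odd size and different from `[n]`, and every point lies in exactly one box. -/
def IsOddPartition (n d k : ℕ) (P : Fin k → Fin d → Finset (Fin n)) : Prop :=
  (∀ j i, Odd (P j i).card ∧ P j i ≠ Finset.univ) ∧
    ∀ x : Fin d → Fin n, ∃! j, ∀ i, x i ∈ P j i

/-- `f_odd(n,d)`: the least number of boxes in such a partition. -/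
noncomputable def fodd (n d : ℕ) : ℕ :=
  sInf {k : ℕ | ∃ P : Fin k → Fin d → Finset (Fin n), IsOddPartition n d k P}

end Pool.Agent.Helper808.OddBox
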