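import Mathlib
import Pool.Agent.Helper808.OddBox.Defs

/-!
# Partitions of `[n]^d` into odd proper boxes: entropy lower bound
-/

set_option autoImplicit false

namespace Pool.Agent.Helper808.OddBox


namespace JLine

theorem line (n : ℕ) (hn : Odd n) (h5 : 5 ≤ n) (S : Fin n → Finset (Fin n))
    (hmem : ∀ t, t ∈ S t) (hpart : ∀ t u, u ∈ S t → S u = S t)
    (hodd : ∀ t, Odd (S t).card) (hproper : ∀ t, S t ≠ Finset.univ) :
    ∑ t, Real.log ((S t).card : ℝ) ≤ ((n : ℝ) - 2) * Real.log ((n : ℝ) - 2) := by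
  classical
  obtain ⟨parts, hparts⟩ : ∃ parts : Finset (Finset (Fin n)), parts = Finset.univ.image S := ⟨_, rfl⟩
  have hfib : ∀ A ∈ parts, Finset.univ.filter (fun t => S t = A) = A := by
    intro A hA
    rw [hparts] at hA
    obtain ⟨u, -, rfl⟩ := Finset.mem_image.mp hA
    ext t
    simp only [Finset.mem_filter, Finset.mem_univ, true_and]
    constructor
    · intro h; rw [← h]; exact hmem t
    · intro h; exact hpart u t h
  have hAodd : ∀ A ∈ parts, Odd A.card := by
    intro A hA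
    rw [hparts] at hA
    obtain ⟨u, -, rfl⟩ := Finset.mem_image.mp hA
    exact hodd u
  have hcard : ∑ A ∈ parts, A.card = n := by
    have h1 := Finset.card_eq_sum_card_image S Finset.univ
    rw [Finset.card_univ, Fintype.card_fin, ← hparts] at h1
    refine Eq.trans (Finset.sum_congr rfl (fun A hA => ?_)) h1.symm
    rw [hfib A hA]
  have hinv : ∑ t, (1:ℝ) / ((S t).card : ℝ) = parts.card := by
    rw [← Finset.sum_fiberwise_of_maps_to (g := S) (t := parts)
      (fun t _ => by rw [hparts]; exact Finset.mem_image_of_mem S (Finset.mem_univ t))]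
    have h1 : ∀ A ∈ parts, ∑ t ∈ Finset.univ.filter (fun t => S t = A), (1:ℝ) / ((S t).card : ℝ) = 1 := by
      intro A hA
      have h2 : ∀ t ∈ Finset.univ.filter (fun t => S t = A), (1:ℝ) / ((S t).card : ℝ) = 1 / A.card := by
        intro t ht
        rw [(Finset.mem_filter.mp ht).2]
      rw [Finset.sum_congr rfl h2, Finset.sum_const, hfib A hA, nsmul_eq_mul]
      have h3 : (A.card : ℝ) ≠ 0 := by
        have := (hAodd A hA).pos
        exact_mod_cast this.ne'
      field_simp
    rw [Finset.sum_congr rfl h1]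
    simp
  have hmodd : Odd parts.card := by
    have h1 : Odd (∑ A ∈ parts, A.card) := by rw [hcard]; exact hn
    rw [Finset.odd_sum_iff_odd_card_odd] at h1
    rwa [Finset.filter_true_of_mem (fun A hA => hAodd A hA)] at h1
  have hm1 : parts.card ≠ 1 := by
    intro h1
    obtain ⟨A, hA⟩ := Finset.card_eq_one.mp h1
    have h0 : ∀ t, S t = A := by
      intro t
      have : S t ∈ parts := by rw [hparts]; exact Finset.mem_image_of_mem S (Finset.mem_univ t)
      rw [hA] at this
      exact Finset.mem_singleton.mp this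
    have t0 : Fin n := ⟨0, by omega⟩
    apply hproper t0
    ext u
    simp only [Finset.mem_univ, iff_true]
    rw [h0 t0, ← h0 u]
    exact hmem u
  have hm3 : 3 ≤ parts.card := by
    obtain ⟨j, hj⟩ := hmodd
    omega
  have hle : ∀ t, (S t).card + 2 ≤ n := by
    intro t
    have h1 : (S t).card < n := by
      have h2 : (S t).card ≤ n := by
        have := Finset.card_le_univ (S t)
        simpa using this
      rcases Nat.lt_or_ge (S t).card n with h3 | h3
      · exact h3
      · exfalso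
        apply hproper t
        apply Finset.eq_univ_of_card
        rw [Fintype.card_fin]
        omega
    obtain ⟨a, ha⟩ := hodd t
    obtain ⟨c, hc⟩ := hn
    omega
  have hnR : (5:ℝ) ≤ n := by exact_mod_cast h5
  obtain ⟨N, hN⟩ : ∃ N : ℝ, N = (n:ℝ) - 2 := ⟨_, rfl⟩
  have hN3 : 3 ≤ N := by rw [hN]; linarith
  have hlogN : 0 ≤ Real.log N := Real.log_nonneg (by linarith)
  obtain ⟨c, hc⟩ : ∃ c : ℝ, c = N * Real.log N / (N - 1) := ⟨_, rfl⟩
  have hN1 : 0 < N - 1 := by linarith
  have hc0 : 0 ≤ c := by rw [hc]; positivity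
  have hpt : ∀ t, Real.log ((S t).card : ℝ) ≤ (1 - 1 / ((S t).card : ℝ)) * c := by
    intro t
    obtain ⟨a, ha⟩ : ∃ a : ℝ, a = ((S t).card : ℝ) := ⟨_, rfl⟩
    rw [← ha]
    have ha1 : 1 ≤ a := by rw [ha]; exact_mod_cast (hodd t).pos
    have haN : a ≤ N := by
      rw [ha, hN]
      have : (((S t).card : ℕ) : ℝ) + 2 ≤ n := by exact_mod_cast hle t
      linarith
    have ha0 : 0 < a := by linarith
    have hconv := Real.convexOn_mul_log.2 (show (1:ℝ) ∈ Set.Ici 0 by simp)
      (show N ∈ Set.Ici (0:ℝ) by simp; linarith)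
      (show 0 ≤ (N - a) / (N - 1) by apply div_nonneg <;> linarith)
      (show 0 ≤ (a - 1) / (N - 1) by apply div_nonneg <;> linarith)
      (show (N - a) / (N - 1) + (a - 1) / (N - 1) = 1 by field_simp; ring)
    simp only [smul_eq_mul, Real.log_one, mul_zero, mul_one, zero_add] at hconv
    have h1 : (N - a) / (N - 1) + (a - 1) / (N - 1) * N = a := by
      field_simp
      ring
    rw [h1] at hconv
    have h2 : (a - 1) / (N - 1) * (N * Real.log N) = (a - 1) * c := by rw [hc]; field_simp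
    rw [h2] at hconv
    have h3 : (1 - 1 / a) * c = ((a - 1) * c) / a := by field_simp
    rw [h3, le_div_iff₀ ha0]
    linarith
  calc ∑ t, Real.log ((S t).card : ℝ) ≤ ∑ t, (1 - 1 / ((S t).card : ℝ)) * c :=
        Finset.sum_le_sum (fun t _ => hpt t)
    _ = ((n:ℝ) - parts.card) * c := by
        rw [← Finset.sum_mul, Finset.sum_sub_distrib, hinv]
        simp
    _ ≤ (N - 1) * c := by
        apply mul_le_mul_of_nonneg_right _ hc0
        have : (3:ℝ) ≤ parts.card := by exact_mod_cast hm3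
        rw [hN]
        linarith
    _ = N * Real.log N := by rw [hc]; field_simp
    _ = ((n : ℝ) - 2) * Real.log ((n : ℝ) - 2) := by rw [hN]

end JLine


namespace JAvg

theorem avg (n d : ℕ) (g : (Fin d → Fin n) → ℝ) (i : Fin d) :
    ∑ x : Fin d → Fin n, ∑ t : Fin n, g (Function.update x i t) = (n : ℝ) * ∑ x, g x := by
  have hinv : ∀ p : (Fin d → Fin n) × Fin n,
      ((Function.update (Function.update p.1 i p.2) i (p.1 i),
        (Function.update p.1 i p.2) i) : (Fin d → Fin n) × Fin n) = p := by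
    intro p
    rw [Function.update_idem, Function.update_eq_self, Function.update_self]
  let e : ((Fin d → Fin n) × Fin n) ≃ ((Fin d → Fin n) × Fin n) :=
    { toFun := fun p => (Function.update p.1 i p.2, p.1 i)
      invFun := fun p => (Function.update p.1 i p.2, p.1 i)
      left_inv := hinv
      right_inv := hinv }
  have h1 : ∑ x : Fin d → Fin n, ∑ t : Fin n, g (Function.update x i t) =
      ∑ p : (Fin d → Fin n) × Fin n, g (e p).1 := by
    rw [Fintype.sum_prod_type]
    rfl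
  have h2 : ∑ p : (Fin d → Fin n) × Fin n, g (e p).1 = ∑ p : (Fin d → Fin n) × Fin n, g p.1 :=
    Equiv.sum_comp e (fun p => g p.1)
  rw [h1, h2, Fintype.sum_prod_type, Finset.mul_sum]
  refine Finset.sum_congr rfl fun x _ => ?_
  show ∑ _y : Fin n, g x = (n : ℝ) * g x
  rw [Finset.sum_const, Finset.card_univ, Fintype.card_fin, nsmul_eq_mul]

end JAvg


namespace JEnt

theorem ent (k : ℕ) (w : Fin k → ℝ) (hw : ∀ j, 0 < w j) (hs : ∑ j, w j = 1) :
    ∑ j, w j * Real.log (1 / w j) ≤ Real.log k := by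
  have hk : 0 < k := by
    rcases Nat.eq_zero_or_pos k with h | h
    · subst h
      simp at hs
    · exact h
  have hk' : (0:ℝ) < k := by exact_mod_cast hk
  have h1 : ∀ j, w j * Real.log (1 / w j) - w j * Real.log k ≤ 1 / k - w j := by
    intro j
    have hwj := hw j
    have h2 : Real.log (1 / (k * w j)) ≤ 1 / (k * w j) - 1 :=
      Real.log_le_sub_one_of_pos (by positivity)
    have h3 : Real.log (1 / (k * w j)) = Real.log (1 / w j) - Real.log k := by
      rw [one_div, one_div, Real.log_inv, Real.log_inv, Real.log_mul hk'.ne' hwj.ne']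
      ring
    rw [h3] at h2
    have h4 := mul_le_mul_of_nonneg_left h2 hwj.le
    have h5 : w j * (1 / (k * w j) - 1) = 1 / k - w j := by
      field_simp
    rw [h5] at h4
    linarith
  have h6 := Finset.sum_le_sum (s := Finset.univ) fun j _ => h1 j
  rw [Finset.sum_sub_distrib, Finset.sum_sub_distrib, ← Finset.sum_mul, hs, Finset.sum_const,
    Finset.card_univ, Fintype.card_fin, nsmul_eq_mul] at h6
  have h7 : (k:ℝ) * (1 / k) = 1 := by field_simp
  rw [h7] at h6
  linarith

end JEnt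


namespace JCount

theorem count (n d k : ℕ) (P : Fin k → Fin d → Finset (Fin n)) (J : (Fin d → Fin n) → Fin k)
    (hJ : ∀ x j, (∀ i, x i ∈ P j i) ↔ J x = j) (F : Fin k → ℝ) :
    ∑ x, F (J x) = ∑ j, (∏ i, ((P j i).card : ℝ)) * F j := by
  classical
  rw [← Finset.sum_fiberwise Finset.univ J (fun x => F (J x))]
  apply Finset.sum_congr rfl
  intro j _
  have h1 : ∑ x ∈ Finset.univ.filter (fun x => J x = j), F (J x)
      = ∑ x ∈ Finset.univ.filter (fun x => J x = j), F j := by
    apply Finset.sum_congr rfl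
    intro x hx
    rw [(Finset.mem_filter.1 hx).2]
  rw [h1, Finset.sum_const, nsmul_eq_mul]
  congr 1
  have h2 : Finset.univ.filter (fun x => J x = j) = Fintype.piFinset (P j) := by
    ext x
    simp only [Finset.mem_filter, Finset.mem_univ, true_and, Fintype.mem_piFinset]
    exact (hJ x j).symm
  rw [h2, Fintype.card_piFinset]
  push_cast
  rfl

end JCount


namespace JMain

theorem main
    (line : ∀ (n : ℕ), Odd n → 5 ≤ n → ∀ (S : Fin n → Finset (Fin n)),
      (∀ t, t ∈ S t) → (∀ t u, u ∈ S t → S u = S t) →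
      (∀ t, Odd (S t).card) → (∀ t, S t ≠ Finset.univ) →
      ∑ t, Real.log ((S t).card : ℝ) ≤ ((n : ℝ) - 2) * Real.log ((n : ℝ) - 2))
    (avg : ∀ (n d : ℕ) (g : (Fin d → Fin n) → ℝ) (i : Fin d),
      ∑ x : Fin d → Fin n, ∑ t : Fin n, g (Function.update x i t) = (n : ℝ) * ∑ x, g x)
    (ent : ∀ (k : ℕ) (w : Fin k → ℝ), (∀ j, 0 < w j) → ∑ j, w j = 1 →
      ∑ j, w j * Real.log (1 / w j) ≤ Real.log k)
    (count : ∀ (n d k : ℕ) (P : Fin k → Fin d → Finset (Fin n)) (J : (Fin d → Fin n) → Fin k),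
      (∀ x j, (∀ i, x i ∈ P j i) ↔ J x = j) → ∀ (F : Fin k → ℝ),
      ∑ x, F (J x) = ∑ j, (∏ i, ((P j i).card : ℝ)) * F j)
    (n d k : ℕ) (hn : Odd n) (h5 : 5 ≤ n) (P : Fin k → Fin d → Finset (Fin n))
    (hP : IsOddPartition n d k P) :
    (d : ℝ) * ((n : ℝ) * Real.log n - ((n : ℝ) - 2) * Real.log ((n : ℝ) - 2))
      ≤ (n : ℝ) * Real.log k := by
  classical
  obtain ⟨hP1, hP2⟩ := hP
  choose J hJs hJu using hP2
  have hJ : ∀ x j, (∀ i, x i ∈ P j i) ↔ J x = j := by
    intro x j
    constructor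
    · intro h
      exact (hJu x j h).symm
    · rintro rfl
      exact hJs x
  have hn0 : (0 : ℝ) < n := by
    have : 0 < n := by omega
    exact_mod_cast this
  have hnd : (0 : ℝ) < (n : ℝ) ^ d := by positivity
  have hb : ∀ j i, (0 : ℝ) < ((P j i).card : ℝ) := by
    intro j i
    exact_mod_cast (hP1 j i).1.pos
  set Q : Fin k → ℝ := fun j => ∏ i, ((P j i).card : ℝ) with hQ
  have hQ0 : ∀ j, 0 < Q j := fun j => Finset.prod_pos (fun i _ => hb j i)
  set w : Fin k → ℝ := fun j => Q j / (n : ℝ) ^ d with hw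
  have hw0 : ∀ j, 0 < w j := fun j => div_pos (hQ0 j) hnd
  have hcard : ∑ x : Fin d → Fin n, (1 : ℝ) = (n : ℝ) ^ d := by
    rw [Finset.sum_const, Finset.card_univ, Fintype.card_fun, Fintype.card_fin, Fintype.card_fin,
      nsmul_eq_mul, mul_one]
    push_cast
    rfl
  have hsumQ : ∑ j, Q j = (n : ℝ) ^ d := by
    have h1 := count n d k P J hJ (fun _ => 1)
    rw [hcard] at h1
    rw [h1]
    refine Finset.sum_congr rfl (fun j _ => ?_)
    rw [mul_one]
  have hsumw : ∑ j, w j = 1 := by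
    simp only [hw]
    rw [← Finset.sum_div, hsumQ, div_self hnd.ne']
  have hent := ent k w hw0 hsumw
  have hlog : ∀ j, Real.log (1 / w j) = d * Real.log n - ∑ i, Real.log ((P j i).card : ℝ) := by
    intro j
    simp only [hw, hQ]
    rw [one_div, Real.log_inv, Real.log_div (hQ0 j).ne' hnd.ne', Real.log_pow,
      Real.log_prod (fun i _ => (hb j i).ne')]
    ring
  have hcount := count n d k P J hJ (fun j => Real.log (1 / w j))
  have hR : ∑ j, (∏ i, ((P j i).card : ℝ)) * Real.log (1 / w j) =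
      (n : ℝ) ^ d * ∑ j, w j * Real.log (1 / w j) := by
    rw [Finset.mul_sum]
    refine Finset.sum_congr rfl (fun j _ => ?_)
    show Q j * Real.log (1 / w j) = (n : ℝ) ^ d * (Q j / (n : ℝ) ^ d * Real.log (1 / w j))
    rw [← mul_assoc, mul_div_cancel₀ _ hnd.ne']
  have hLHS : ∑ x, Real.log (1 / w (J x)) =
      (n : ℝ) ^ d * (d * Real.log n) - ∑ i, ∑ x, Real.log ((P (J x) i).card : ℝ) := by
    rw [Finset.sum_comm, ← hcard, Finset.sum_mul, ← Finset.sum_sub_distrib]
    refine Finset.sum_congr rfl (fun x _ => ?_)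
    rw [hlog, one_mul]
  have hline : ∀ i : Fin d, (n : ℝ) * ∑ x, Real.log ((P (J x) i).card : ℝ) ≤
      (n : ℝ) ^ d * (((n : ℝ) - 2) * Real.log ((n : ℝ) - 2)) := by
    intro i
    rw [← avg n d (fun x => Real.log ((P (J x) i).card : ℝ)) i, ← hcard, Finset.sum_mul]
    refine Finset.sum_le_sum (fun x _ => ?_)
    rw [one_mul]
    refine line n hn h5 (fun t => P (J (Function.update x i t)) i) ?_ ?_ ?_ ?_
    · intro t
      have := hJs (Function.update x i t) i
      rwa [Function.update_self] at this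
    · intro t u hu
      have h1 : J (Function.update x i u) = J (Function.update x i t) := by
        rw [← hJ]
        intro i'
        by_cases hi : i' = i
        · subst hi
          rw [Function.update_self]
          exact hu
        · rw [Function.update_of_ne hi]
          have := hJs (Function.update x i t) i'
          rwa [Function.update_of_ne hi] at this
      show P (J (Function.update x i u)) i = P (J (Function.update x i t)) i
      rw [h1]
    · intro t
      exact (hP1 _ _).1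
    · intro t
      exact (hP1 _ _).2
  have hsumline : (n : ℝ) * ∑ i, ∑ x, Real.log ((P (J x) i).card : ℝ) ≤
      (d : ℝ) * ((n : ℝ) ^ d * (((n : ℝ) - 2) * Real.log ((n : ℝ) - 2))) := by
    rw [Finset.mul_sum]
    refine (Finset.sum_le_sum (fun i _ => hline i)).trans (le_of_eq ?_)
    rw [Finset.sum_const, Finset.card_univ, Fintype.card_fin, nsmul_eq_mul]
  have hfin : (n : ℝ) ^ d * (d * Real.log n) - ∑ i, ∑ x, Real.log ((P (J x) i).card : ℝ) ≤
      (n : ℝ) ^ d * Real.log k := by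
    rw [← hLHS, hcount, hR]
    exact mul_le_mul_of_nonneg_left hent hnd.le
  have hfin2 := mul_le_mul_of_nonneg_left hfin hn0.le
  have hgoal : (n : ℝ) ^ d * ((d : ℝ) * ((n : ℝ) * Real.log n -
      ((n : ℝ) - 2) * Real.log ((n : ℝ) - 2))) ≤ (n : ℝ) ^ d * ((n : ℝ) * Real.log k) := by
    generalize (∑ i, ∑ x, Real.log ((P (J x) i).card : ℝ)) = A at hfin2 hsumline
    generalize ((n : ℝ) - 2) * Real.log ((n : ℝ) - 2) = M at hsumline ⊢
    have e1 : (n : ℝ) ^ d * ((d : ℝ) * ((n : ℝ) * Real.log n - M)) =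
        (n : ℝ) * ((n : ℝ) ^ d * (d * Real.log n) - A) + ((n : ℝ) * A - (d : ℝ) * ((n : ℝ) ^ d * M)) := by
      ring
    have e2 : (n : ℝ) ^ d * ((n : ℝ) * Real.log k) = (n : ℝ) * ((n : ℝ) ^ d * Real.log k) := by ring
    rw [e1, e2]
    linarith
  exact le_of_mul_le_mul_left hgoal hnd

end JMain


namespace JCor

theorem cor
    (main : ∀ (n d k : ℕ), Odd n → 5 ≤ n → ∀ (P : Fin k → Fin d → Finset (Fin n)),
      IsOddPartition n d k P →
      (d : ℝ) * ((n : ℝ) * Real.log n - ((n : ℝ) - 2) * Real.log ((n : ℝ) - 2))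
        ≤ (n : ℝ) * Real.log k) :
    (∀ n d k : ℕ, Odd n → 5 ≤ n → ∀ P : Fin k → Fin d → Finset (Fin n),
      IsOddPartition n d k P → n ^ (n * d) ≤ k ^ n * (n - 2) ^ ((n - 2) * d)) ∧
    (∀ d : ℕ, (2.586 : ℝ) ^ d ≤ fodd 5 d) ∧
    (∀ d : ℕ, (2.217 : ℝ) ^ d ≤ fodd 7 d) := by
  have part1 : ∀ n d k : ℕ, Odd n → 5 ≤ n → ∀ P : Fin k → Fin d → Finset (Fin n),
      IsOddPartition n d k P → n ^ (n * d) ≤ k ^ n * (n - 2) ^ ((n - 2) * d) := by
    intro n d k hn h5 P hP
    have hk : 0 < k := by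
      rcases Nat.eq_zero_or_pos k with h | h
      · subst h
        obtain ⟨j, _⟩ := hP.2 (fun _ => ⟨0, by omega⟩)
        exact j.elim0
      · exact h
    have hm := main n d k hn h5 P hP
    have hkR : (0 : ℝ) < (k : ℝ) := by exact_mod_cast hk
    have hnR : (0 : ℝ) < (n : ℝ) := by
      have : 0 < n := by omega
      exact_mod_cast this
    have hc : ((n - 2 : ℕ) : ℝ) = (n : ℝ) - 2 := by
      rw [Nat.cast_sub (by omega)]
      norm_num
    have hn2 : (0 : ℝ) < ((n - 2 : ℕ) : ℝ) := by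
      have : 0 < n - 2 := by omega
      exact_mod_cast this
    have hR : ((n : ℝ)) ^ (n * d) ≤ (k : ℝ) ^ n * ((n - 2 : ℕ) : ℝ) ^ ((n - 2) * d) := by
      rw [← Real.log_le_log_iff (by positivity) (by positivity),
        Real.log_mul (by positivity) (by positivity), Real.log_pow, Real.log_pow, Real.log_pow,
        Nat.cast_mul, Nat.cast_mul, hc]
      linarith [hm]
    exact_mod_cast hR
  have hne : ∀ n d : ℕ, 5 ≤ n → {k : ℕ | ∃ P : Fin k → Fin d → Finset (Fin n), IsOddPartition n d k P}.Nonempty := by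
    intro n d hn
    refine ⟨n ^ d, fun j i => {finFunctionFinEquiv.symm j i}, ?_, ?_⟩
    · intro j i
      refine ⟨by simp, ?_⟩
      intro h
      have h1 := congrArg Finset.card h
      rw [Finset.card_singleton, Finset.card_univ, Fintype.card_fin] at h1
      omega
    · intro x
      refine ⟨finFunctionFinEquiv x, ?_, ?_⟩
      · intro i
        simp
      · intro j hj
        have : finFunctionFinEquiv.symm j = x := by
          funext i
          exact (Finset.mem_singleton.mp (hj i)).symm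
        rw [← this, Equiv.apply_symm_apply]
  have hatt : ∀ n d : ℕ, Odd n → 5 ≤ n → n ^ (n * d) ≤ (fodd n d) ^ n * (n - 2) ^ ((n - 2) * d) := by
    intro n d hn h5
    obtain ⟨P, hP⟩ := Nat.sInf_mem (hne n d h5)
    exact part1 n d _ hn h5 P hP
  refine ⟨part1, ?_, ?_⟩
  · intro d
    have h := hatt 5 d (by decide) (le_refl _)
    have h' : ((3125 : ℝ)) ^ d ≤ (fodd 5 d : ℝ) ^ 5 * 27 ^ d := by
      have h2 : (5 : ℕ) ^ (5 * d) = 3125 ^ d := by rw [pow_mul]; norm_num
      have h3 : (5 - 2 : ℕ) ^ ((5 - 2) * d) = 27 ^ d := by rw [pow_mul]; norm_num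
      rw [h2, h3] at h
      exact_mod_cast h
    have h4 : ((2.586 : ℝ) ^ d) ^ 5 * 27 ^ d ≤ 3125 ^ d := by
      rw [← pow_mul, mul_comm d 5, pow_mul, ← mul_pow]
      exact pow_le_pow_left₀ (by positivity) (by norm_num) d
    have h5 : ((2.586 : ℝ) ^ d) ^ 5 ≤ (fodd 5 d : ℝ) ^ 5 := by
      have h27 : (0 : ℝ) < 27 ^ d := by positivity
      exact le_of_mul_le_mul_right (h4.trans h') h27
    exact le_of_pow_le_pow_left₀ (by norm_num) (by positivity) h5
  · intro d
    have h := hatt 7 d (by decide) (by norm_num)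
    have h' : ((823543 : ℝ)) ^ d ≤ (fodd 7 d : ℝ) ^ 7 * 3125 ^ d := by
      have h2 : (7 : ℕ) ^ (7 * d) = 823543 ^ d := by rw [pow_mul]; norm_num
      have h3 : (7 - 2 : ℕ) ^ ((7 - 2) * d) = 3125 ^ d := by rw [pow_mul]; norm_num
      rw [h2, h3] at h
      exact_mod_cast h
    have h4 : ((2.217 : ℝ) ^ d) ^ 7 * 3125 ^ d ≤ 823543 ^ d := by
      rw [← pow_mul, mul_comm d 7, pow_mul, ← mul_pow]
      exact pow_le_pow_left₀ (by positivity) (by norm_num) d
    have h5 : ((2.217 : ℝ) ^ d) ^ 7 ≤ (fodd 7 d : ℝ) ^ 7 := by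
      have h27 : (0 : ℝ) < 3125 ^ d := by positivity
      exact le_of_mul_le_mul_right (h4.trans h') h27
    exact le_of_pow_le_pow_left₀ (by norm_num) (by positivity) h5

end JCor


namespace JLim

theorem lim (c : ℝ) (hc : 0 < c) (F : ℕ → ℕ) (hF : ∀ d, c ^ d ≤ F d) (a : ℝ)
    (ha : Filter.Tendsto (fun d : ℕ => ((F d : ℕ) : ℝ) ^ ((1 : ℝ) / (d : ℝ)))
      Filter.atTop (nhds a)) : c ≤ a := by
  refine ge_of_tendsto ha ?_
  filter_upwards [Filter.eventually_ge_atTop 1] with d hd
  have hd0 : (d : ℝ) ≠ 0 := by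
    have : 0 < d := hd
    positivity
  have h1 : (c ^ d) ^ ((1 : ℝ) / (d : ℝ)) = c := by
    rw [← Real.rpow_natCast c d, ← Real.rpow_mul hc.le, mul_one_div, div_self hd0, Real.rpow_one]
  calc c = (c ^ d) ^ ((1 : ℝ) / (d : ℝ)) := h1.symm
    _ ≤ _ := Real.rpow_le_rpow (by positivity) (hF d) (by positivity)

end JLim


/-- The entropy bound in logarithmic form. -/
theorem logBound (n d k : ℕ) (hn : Odd n) (h5 : 5 ≤ n) (P : Fin k → Fin d → Finset (Fin n))
    (hP : IsOddPartition n d k P) :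
    (d : ℝ) * ((n : ℝ) * Real.log n - ((n : ℝ) - 2) * Real.log ((n : ℝ) - 2))
      ≤ (n : ℝ) * Real.log k :=
  JMain.main (fun n hn h5 S h1 h2 h3 h4 => JLine.line n hn h5 S h1 h2 h3 h4)
    (fun n d g i => JAvg.avg n d g i) (fun k w hw hs => JEnt.ent k w hw hs)
    (fun n d k P J hJ F => JCount.count n d k P J hJ F) n d k hn h5 P hP

theorem bounds :
    (∀ n d k : ℕ, Odd n → 5 ≤ n → ∀ P : Fin k → Fin d → Finset (Fin n),
      IsOddPartition n d k P → n ^ (n * d) ≤ k ^ n * (n - 2) ^ ((n - 2) * d)) ∧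
    (∀ d : ℕ, (2.586 : ℝ) ^ d ≤ fodd 5 d) ∧
    (∀ d : ℕ, (2.217 : ℝ) ^ d ≤ fodd 7 d) :=
  JCor.cor fun n d k hn h5 P hP => logBound n d k hn h5 P hP

theorem limits :
    (∀ a : ℝ, Filter.Tendsto (fun d : ℕ => ((fodd 5 d : ℕ) : ℝ) ^ ((1 : ℝ) / (d : ℝ)))
      Filter.atTop (nhds a) → 2.586 ≤ a) ∧
    (∀ a : ℝ, Filter.Tendsto (fun d : ℕ => ((fodd 7 d : ℕ) : ℝ) ^ ((1 : ℝ) / (d : ℝ)))
      Filter.atTop (nhds a) → 2.217 ≤ a) :=
  ⟨fun a ha => JLim.lim 2.586 (by norm_num) _ bounds.2.1 a ha,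
   fun a ha => JLim.lim 2.217 (by norm_num) _ bounds.2.2 a ha⟩

end Pool.Agent.Helper808.OddBox
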